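import Pool.Agent.H514.Li.GX7

/-!
# Li coefficients of the high derivatives of the Ramanujan L-function

`Λ(s) = (2π)^(-s) Γ(s) L(s, Δ)` is the completed L-function of the modular discriminant, and `Ξ_Δ(z) = Λ(6 + i z)`. By
Li's criterion (Bombieri and Lagarias) all zeros of `Ξ_Δ` are real if and only if all the numbers
`λ_k(Λ) = ∑_ρ (1 - (1 - 1/(ρ - 11/2))^k)`, `k ≥ 1`, are non-negative (`ρ` runs over the zeros of `Λ`, which
are in the strip `|Re s - 6| ≤ 1/2`), and this implies that `λ_k(Λ^(n)) ≥ 0` for all `k` and all derivatives `Λ^(n)`.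

We prove unconditionally: there are `c, κ > 0` such that for all large `n` and all `1 ≤ k ≤ e^(κ n)` the series of
`λ_k(Λ^(n))` converges absolutely and `λ_k(Λ^(n)) ≥ c k² log (k + n) / (k + n)`.
-/

set_option autoImplicit false

namespace Pool.Agent.Results.MP_cd509c_nt.LiCoefficientsOfDerivatives

/-- `Δ(i y) = e^(-2πy) ∏_{n ≥ 1} (1 - e^(-2πny))^24`, the modular discriminant on the imaginary axis
(the function of the frozen statement S18517). -/
noncomputable def delta (y : ℝ) : ℝ :=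
  Real.exp (-2 * Real.pi * y) * ∏' n : ℕ, (1 - Real.exp (-2 * Real.pi * ((n : ℝ) + 1) * y)) ^ 24

/-- The completed L-function `Λ(s) = ∫_0^∞ Δ(i y) y^(s-1) dy = (2π)^(-s) Γ(s) L(s, Δ)`, an entire
function with `Λ(12 - s) = Λ(s)`; the Ramanujan Xi function is `Ξ_Δ(z) = Λ(6 + i z)`. -/
noncomputable def Lam (s : ℂ) : ℂ := mellin (fun y : ℝ => ((delta y : ℝ) : ℂ)) s

/-- The contribution `m(ρ) Re (1 - (1 - 1/(ρ - 11/2))^k)` of a zero `ρ` of `F`, of multiplicity `m(ρ)`,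
to the `k`-th Li coefficient of `F` (for the critical line `Re s = 6`). -/
noncomputable def liTerm (F : ℂ → ℂ) (k : ℕ) (ρ : ℂ) : ℝ :=
  (analyticOrderNatAt F ρ : ℝ) * (1 - (1 - 1 / (ρ - 11 / 2)) ^ k).re

/-- The `k`-th Li coefficient `λ_k(F)`: the sum of `liTerm F k` over the distinct zeros of `F`. -/
noncomputable def li (F : ℂ → ℂ) (k : ℕ) : ℝ := ∑' ρ : {ρ : ℂ // F ρ = 0}, liTerm F k ρ

/-- There are `c, κ > 0` and `n₀` such that for all `n ≥ n₀` and all `1 ≤ k ≤ e^(κ n)` the series of the `k`-th Li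
coefficient `λ_k(Λ^(n))` of the `n`-th derivative of the completed Ramanujan L-function converges absolutely and
`λ_k(Λ^(n)) ≥ c k² log (k + n) / (k + n)`. -/
theorem result :
    ∃ κ : ℝ, 0 < κ ∧ ∃ c : ℝ, 0 < c ∧ ∃ n0 : ℕ, ∀ n : ℕ, n0 ≤ n →
      ∀ k : ℕ, 1 ≤ k → (k : ℝ) ≤ Real.exp (κ * n) →
      (Summable fun ρ : {ρ : ℂ // iteratedDeriv n Lam ρ = 0} => liTerm (iteratedDeriv n Lam) k ρ) ∧
      c * (k : ℝ) ^ 2 * Real.log ((k : ℝ) + n) / ((k : ℝ) + n) ≤ li (iteratedDeriv n Lam) k := by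
  have h := Pool.Agent.H514.Li.li_delta
  have e : ∀ (F : ℂ → ℂ) (k : ℕ) (ρ : ℂ), Pool.Agent.H514.Li.liT 6 F k ρ = liTerm F k ρ := by
    intro F k ρ
    unfold Pool.Agent.H514.Li.liT liTerm
    have e2 : ((6 : ℝ) : ℂ) - 1 / 2 = 11 / 2 := by norm_num
    rw [e2]
  simp only [e] at h
  exact h

end Pool.Agent.Results.MP_cd509c_nt.LiCoefficientsOfDerivatives
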